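import Pool.Agent.J6H5.ST.Comb

/-!
# MP_fd75d0_co: the degree of a regular Steinhaus graph

If the vertices `0, 1, 2` of a Steinhaus graph on `n` vertices have the same even degree `d` (in
particular, if the graph is regular of even degree), then `d ≤ 2 (n - 1) / 3`, and equality holds only
for the string `(110)^k`.
-/

set_option autoImplicit false

namespace Pool.Agent.Results.MP_fd75d0_co.DegreeBound

/-- The entries `a i j` (used for `i < j`) of the Steinhaus matrix generated by the string `x`: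
the first row is `a 0 j = x j`, and `a (i+1) (j+1) = a i j + a i (j+1)`. -/
def entry (x : ℕ → ZMod 2) : ℕ → ℕ → ZMod 2
  | 0, j => x j
  | (_ + 1), 0 => 0
  | (i + 1), (j + 1) => entry x i j + entry x i (j + 1)

/-- The Steinhaus graph on the vertices `0, …, n-1` generated by the string `x 1 … x (n-1)`:
distinct `u < w` are adjacent iff `a u w = 1`. -/
def steinhausGraph (n : ℕ) (x : ℕ → ZMod 2) : SimpleGraph (Fin n) :=
  SimpleGraph.fromRel (fun u w : Fin n => u < w ∧ entry x u.val w.val = 1)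

/-- the degrees in the graph defined by an upper triangular matrix -/
theorem ncard_eq (n : ℕ) (a : ℕ → ℕ → ZMod 2) (v : Fin n) :
    ((SimpleGraph.fromRel (fun u w : Fin n => u < w ∧ a u.val w.val = 1)).neighborSet v).ncard
      = (∑ u ∈ Finset.range v.val, (a u v.val).val) +
        ∑ t ∈ Finset.range (n - 1 - v.val), (a v.val (v.val + 1 + t)).val := by
  classical
  have hset : (SimpleGraph.fromRel (fun u w : Fin n => u < w ∧ a u.val w.val = 1)).neighborSet v
      = ↑(Finset.univ.filter (fun w : Fin n => (v.val < w.val ∧ a v.val w.val = 1) ∨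
        (w.val < v.val ∧ a w.val v.val = 1))) := by
    ext w
    simp only [SimpleGraph.mem_neighborSet, SimpleGraph.fromRel_adj, Finset.coe_filter,
      Finset.mem_univ, true_and, Set.mem_ofPred_eq, Fin.lt_def]
    constructor
    · rintro ⟨_, h⟩; exact h
    · intro h
      refine ⟨?_, h⟩
      rintro rfl
      rcases h with h | h <;> exact absurd h.1 (lt_irrefl _)
  rw [hset, Set.ncard_coe_finset, Finset.card_filter]
  rw [Fin.sum_univ_eq_sum_range (fun w => if (v.val < w ∧ a v.val w = 1) ∨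
        (w < v.val ∧ a w v.val = 1) then 1 else 0) n]
  have hv := v.isLt
  rw [show Finset.range n = Finset.range (v.val + 1 + (n - 1 - v.val)) by congr 1; omega,
    Finset.sum_range_add, Finset.sum_range_succ]
  have hval : ∀ x : ZMod 2, x.val = if x = 1 then 1 else 0 := by decide
  rw [if_neg (by rintro (h | h) <;> exact absurd h.1 (lt_irrefl _)), add_zero]
  congr 1
  · apply Finset.sum_congr rfl
    intro u hu
    rw [Finset.mem_range] at hu
    rw [hval]
    apply if_congr _ rfl rfl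
    constructor
    · rintro (h | h)
      · omega
      · exact h.2
    · intro h; exact Or.inr ⟨hu, h⟩
  · apply Finset.sum_congr rfl
    intro t _
    rw [hval]
    apply if_congr _ rfl rfl
    constructor
    · rintro (h | h)
      · exact h.2
      · omega
    · intro h; exact Or.inl ⟨by omega, h⟩

theorem val_add (a b : ZMod 2) :
    (((a + b).val : ℕ) : ℤ) = (a.val : ℤ) + b.val - 2 * ((a.val : ℤ) * b.val) := by
  revert a b
  decide

/-- Let `n ≥ 2` and let the vertices `0`, `1`, `2` (those of them that exist) of the Steinhaus graph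
of `x` on `n` vertices have the same even degree `d`. Then `3 d ≤ 2 (n - 1)`, and if `3 d = 2 (n - 1)`
then `n - 1 = 3 k`, `k ≥ 1`, and `x` is the string `(110)^k`. -/
theorem result (n : ℕ) (x : ℕ → ZMod 2) (d : ℕ) (hn : 2 ≤ n) (hd : Even d)
    (hreg : ∀ v : Fin n, v.val ≤ 2 → ((steinhausGraph n x).neighborSet v).ncard = d) :
    3 * d ≤ 2 * (n - 1) ∧
    (3 * d = 2 * (n - 1) → ∃ k : ℕ, 1 ≤ k ∧ n - 1 = 3 * k ∧
      ∀ j, 1 ≤ j → j ≤ n - 1 → x j = if j % 3 = 0 then 0 else 1) := by
  obtain ⟨N, rfl⟩ : ∃ N, n = N + 1 := ⟨n - 1, by omega⟩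
  rw [Nat.add_sub_cancel]
  have hN : 1 ≤ N := by omega
  set c : ℕ → ℤ := fun j => if 1 ≤ j ∧ j ≤ N then ((x j).val : ℤ) else 0 with hc
  have hcj : ∀ j, 1 ≤ j → j ≤ N → c j = ((x j).val : ℤ) := fun j h1 h2 => if_pos ⟨h1, h2⟩
  have hval : ∀ y : ZMod 2, y.val = 0 ∨ y.val = 1 := by decide
  have h01 : ∀ j, c j = 0 ∨ c j = 1 := by
    intro j
    by_cases h : 1 ≤ j ∧ j ≤ N
    · rw [hcj j h.1 h.2]
      rcases hval (x j) with h' | h' <;> rw [h']
      · left; rfl
      · right; rfl
    · left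
      exact if_neg h
  have h0 : c 0 = 0 := if_neg (by omega)
  have hN1 : c (N + 1) = 0 := if_neg (by omega)
  have hdZ : Even (d : ℤ) := by exact_mod_cast hd
  have hdeg : ∀ v : ℕ, v ≤ 2 → v < N + 1 → (∑ u ∈ Finset.range v, (entry x u v).val) +
      ∑ t ∈ Finset.range (N - v), (entry x v (v + 1 + t)).val = d := by
    intro v hv hvN
    have h1 := hreg ⟨v, hvN⟩ hv
    have h2 := ncard_eq (N + 1) (entry x) ⟨v, hvN⟩
    rw [Nat.add_sub_cancel] at h2
    rw [← h1]
    exact h2.symm
  -- vertex 0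
  have hd0 : ∑ t ∈ Finset.range N, c (t + 1) = d := by
    have h1 := hdeg 0 (by omega) (by omega)
    rw [Finset.sum_range_zero, zero_add, Nat.sub_zero] at h1
    rw [← h1]
    push_cast
    refine Finset.sum_congr rfl fun t ht => ?_
    rw [Finset.mem_range] at ht
    have e : 0 + 1 + t = t + 1 := by omega
    rw [e, hcj (t + 1) (by omega) (by omega)]
    rfl
  -- vertex 1
  have hd1 : ∑ t ∈ Finset.range N, (c t + c (t + 1) - 2 * (c t * c (t + 1))) = d := by
    obtain ⟨K, rfl⟩ : ∃ K, N = K + 1 := ⟨N - 1, by omega⟩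
    have h1 := hdeg 1 (by omega) (by omega)
    rw [Finset.sum_range_one, Nat.add_sub_cancel] at h1
    rw [Finset.sum_range_succ', h0, ← h1]
    push_cast
    have e1 : (((entry x 0 1).val : ℕ) : ℤ) = c (0 + 1) := by
      rw [hcj (0 + 1) (by omega) (by omega)]
      rfl
    rw [e1, zero_mul, mul_zero, sub_zero, zero_add, add_comm]
    congr 1
    refine Finset.sum_congr rfl fun t ht => ?_
    rw [Finset.mem_range] at ht
    have e : 1 + 1 + t = (t + 1) + 1 := by omega
    rw [e, hcj (t + 1) (by omega) (by omega), hcj (t + 1 + 1) (by omega) (by omega), ← val_add]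
    rfl
  obtain ⟨b1, b2, b3, b4⟩ := Pool.Agent.J6H5.ST.bound N c h01 h0 d hdZ hd0 hd1
  refine ⟨by exact_mod_cast b3, fun he => ?_⟩
  obtain ⟨K, rfl⟩ : ∃ K, N = K + 1 := ⟨N - 1, by omega⟩
  have hK : 1 ≤ K := by
    by_contra hK
    have : K = 0 := by omega
    subst this
    omega
  -- vertex 2
  have hd2 : c 1 + c 2 - 2 * (c 1 * c 2) +
      ∑ t ∈ Finset.range K, (c t + c (t + 2) - 2 * (c t * c (t + 2))) = d := by
    obtain ⟨J, rfl⟩ : ∃ J, K = J + 1 := ⟨K - 1, by omega⟩
    have h1 := hdeg 2 (by omega) (by omega)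
    have e0 : J + 1 + 1 - 2 = J := by omega
    rw [Finset.sum_range_succ, Finset.sum_range_one, e0] at h1
    rw [Finset.sum_range_succ', h0, ← h1]
    push_cast
    have e1 : (((entry x 0 2).val : ℕ) : ℤ) = c (0 + 2) := by
      rw [hcj (0 + 2) (by omega) (by omega)]
      rfl
    have e2 : (((entry x 1 2).val : ℕ) : ℤ) = c 1 + c 2 - 2 * (c 1 * c 2) := by
      rw [hcj 1 (by omega) (by omega), hcj 2 (by omega) (by omega), ← val_add]
      rfl
    have e3 : ∑ t ∈ Finset.range J, ((entry x 2 (2 + 1 + t)).val : ℤ) =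
        ∑ t ∈ Finset.range J,
          (c (t + 1) + c (t + 1 + 2) - 2 * (c (t + 1) * c (t + 1 + 2))) := by
      refine Finset.sum_congr rfl fun t ht => ?_
      rw [Finset.mem_range] at ht
      have e : 2 + 1 + t = ((t + 1) + 1) + 1 := by omega
      rw [e, hcj (t + 1) (by omega) (by omega), hcj (t + 1 + 2) (by omega) (by omega), ← val_add]
      have e4 : entry x 2 (t + 1 + 1 + 1) = x (t + 1) + x (t + 1 + 2) := by
        show (x (t + 1) + x (t + 1 + 1)) + (x (t + 1 + 1) + x (t + 1 + 1 + 1)) =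
          x (t + 1) + x (t + 1 + 2)
        have e5 : ∀ a b c : ZMod 2, (a + b) + (b + c) = a + c := by decide
        exact e5 _ _ _
      rw [e4]
    rw [e1, e2, e3]
    ring
  have hpat := Pool.Agent.J6H5.ST.equality K c h01 h0 hN1 d hdZ hd0 hd1 hd2
    (by exact_mod_cast he)
  have hone : ∀ j, 1 ≤ j → j ≤ K + 1 → c j = 1 → x j = 1 := by
    intro j h1 h2 h3
    rw [hcj j h1 h2] at h3
    have h4 : ∀ y : ZMod 2, ((y.val : ℕ) : ℤ) = 1 → y = 1 := by decide
    exact h4 _ h3
  have hzero : ∀ j, 1 ≤ j → j ≤ K + 1 → c j = 0 → x j = 0 := by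
    intro j h1 h2 h3
    rw [hcj j h1 h2] at h3
    have h4 : ∀ y : ZMod 2, ((y.val : ℕ) : ℤ) = 0 → y = 0 := by decide
    exact h4 _ h3
  refine ⟨(K + 1) / 3, ?_, ?_, ?_⟩
  · have := (hpat 0 (by omega)).2.1
    omega
  · by_contra hne
    have hm : 3 * ((K + 1) / 3) + 1 ≤ K + 1 := by omega
    have := (hpat _ hm).2.1
    omega
  · intro j h1 h2
    have hj : j = 3 * ((j - 1) / 3) + 1 ∨ j = 3 * ((j - 1) / 3) + 2 ∨
        j = 3 * ((j - 1) / 3) + 3 := by omega
    have hm : 3 * ((j - 1) / 3) + 1 ≤ K + 1 := by omega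
    obtain ⟨p1, p2, p3, p4⟩ := hpat _ hm
    rcases hj with hj | hj | hj
    · rw [if_neg (by omega)]
      exact hone j h1 h2 (by rw [hj]; exact p1)
    · rw [if_neg (by omega)]
      exact hone j h1 h2 (by rw [hj]; exact p3)
    · rw [if_pos (by omega)]
      exact hzero j h1 h2 (by rw [hj]; exact p4)

end Pool.Agent.Results.MP_fd75d0_co.DegreeBound
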